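import Mathlib
import Pool.Agent.H793Z.SGDefs
import Pool.Agent.H793Z.SGUlam

set_option autoImplicit false

namespace Pool.Agent.Results.MP_174f4a_gt.ANotFrechet

open Pool.Agent.H793Z.SG

universe v

/-- Both cases of Q1 fail: there is a countable metrizable space `X` such that `C_c(X)` is an
s-group and is not Fréchet–Urysohn, and there is a metrizable space `X` such that `C_p(X)` is an
s-group and is not Fréchet–Urysohn. -/
theorem result :
    (∃ (X : Type) (_ : MetricSpace X), Countable X ∧
      IsSGroup.{v} (Cc X) ∧ ¬ FrechetUrysohnSpace (Cc X)) ∧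
    (∃ (X : Type) (_ : TopologicalSpace X), TopologicalSpace.MetrizableSpace X ∧
      IsSGroup.{v} (Cp X) ∧ ¬ FrechetUrysohnSpace (Cp X)) :=
  ⟨⟨Fan, inferInstance, inferInstance, Fan.isSGroup, Fan.not_frechet⟩,
   ⟨D, inferInstance, inferInstance, D_isSGroup, D_not_frechet⟩⟩

end Pool.Agent.Results.MP_174f4a_gt.ANotFrechet
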